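import Mathlib

/-!
# Boundaries of intersections of sign conditions in a finite set with flips
-/

set_option autoImplicit false

namespace Pool.Agent.J6H21.AS

open Finset Classical

/-- flips of a finite set with signs -/
structure Flips (Ω ι : Type) where
  φ : ι → Ω → Ω
  s : ι → Ω → ℝ
  inv : ∀ i ω, φ i (φ i ω) = ω
  s_self : ∀ i ω, s i (φ i ω) = - s i ω
  s_ne : ∀ i j ω, i ≠ j → s j (φ i ω) = s j ω
  s_abs : ∀ i ω, s i ω = 1 ∨ s i ω = -1

namespace Flips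

variable {Ω ι : Type} [Fintype Ω] [Fintype ι] (F : Flips Ω ι)

/-- a flip as a permutation -/
def eqv (i : ι) : Ω ≃ Ω := ⟨F.φ i, F.φ i, F.inv i, F.inv i⟩

lemma sum_flip (i : ι) (f : Ω → ℝ) : ∑ ω, f (F.φ i ω) = ∑ ω, f ω :=
  Equiv.sum_comp (F.eqv i) f

lemma pair (i : ι) (f : Ω → ℝ) (h : ∀ ω, f ω + f (F.φ i ω) ≤ 0) : ∑ ω, f ω ≤ 0 := by
  have h1 : ∑ ω, (f ω + f (F.φ i ω)) ≤ 0 := Finset.sum_nonpos fun ω _ => h ω
  rw [Finset.sum_add_distrib, F.sum_flip i f] at h1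
  linarith

/-- the number of the boundary edges -/
noncomputable def bd (V : Set Ω) : ℝ := ∑ ω, ∑ i, if ω ∈ V ∧ F.φ i ω ∉ V then (1 : ℝ) else 0

/-- the sum of the signs times the directions -/
noncomputable def X (g : ι → Ω → ℝ) (ω : Ω) : ℝ := ∑ i, F.s i ω * g i ω

/-- the size -/
noncomputable def sz (V : Set Ω) : ℝ := ∑ ω, if ω ∈ V then (1 : ℝ) else 0

/-- directions for a set -/
structure Dir (U : Set Ω) (g : ι → Ω → ℝ) : Prop where
  one : ∀ i ω, g i ω = 1 ∨ g i ω = -1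
  inv : ∀ i ω, g i (F.φ i ω) = g i ω
  dir : ∀ i ω, ω ∉ U → F.φ i ω ∈ U → F.s i ω * g i ω = -1

lemma bd_nonneg (V : Set Ω) : 0 ≤ F.bd V := by
  unfold bd
  exact Finset.sum_nonneg fun ω _ => Finset.sum_nonneg fun i _ => by split_ifs <;> norm_num

omit [Fintype ι] in
lemma sz_nonneg (V : Set Ω) : 0 ≤ sz V := by
  unfold sz
  exact Finset.sum_nonneg fun ω _ => by split_ifs <;> norm_num

lemma abs_sg {U : Set Ω} {g : ι → Ω → ℝ} (hg : F.Dir U g) (i : ι) (ω : Ω) :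
    F.s i ω * g i ω ≤ 1 ∧ -1 ≤ F.s i ω * g i ω := by
  rcases F.s_abs i ω with h | h <;> rcases hg.one i ω with h' | h' <;> rw [h, h'] <;> norm_num

lemma sg_flip {U : Set Ω} {g : ι → Ω → ℝ} (hg : F.Dir U g) (i : ι) (ω : Ω) :
    F.s i (F.φ i ω) * g i (F.φ i ω) = -(F.s i ω * g i ω) := by
  rw [F.s_self, hg.inv]; ring

/-- Kane's inequality -/
lemma step (A U : Set Ω) (g : ι → Ω → ℝ) (hg : F.Dir U g) :
    F.bd (A ∩ U) ≤ F.bd A + ∑ ω, if ω ∈ A ∧ ω ∉ U then |F.X g ω| else 0 := by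
  have h1 : F.bd (A ∩ U) - F.bd A + ∑ ω, (if ω ∈ A ∧ ω ∉ U then F.X g ω else 0) ≤ 0 := by
    have e1 : ∀ V : Set Ω, F.bd V = ∑ i, ∑ ω, if ω ∈ V ∧ F.φ i ω ∉ V then (1 : ℝ) else 0 :=
      fun V => Finset.sum_comm
    have e2 : ∑ ω, (if ω ∈ A ∧ ω ∉ U then F.X g ω else 0) =
        ∑ i, ∑ ω, if ω ∈ A ∧ ω ∉ U then F.s i ω * g i ω else 0 := by
      rw [Finset.sum_comm]
      refine Finset.sum_congr rfl fun ω _ => ?_
      unfold X
      split_ifs
      · rfl
      · simp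
    rw [e1, e1, e2, ← Finset.sum_sub_distrib, ← Finset.sum_add_distrib]
    refine Finset.sum_nonpos fun i _ => ?_
    rw [← Finset.sum_sub_distrib, ← Finset.sum_add_distrib]
    refine F.pair i _ fun ω => ?_
    have hs := F.sg_flip hg i ω
    have hb := F.abs_sg hg i ω
    have hd1 := hg.dir i ω
    have hd2 := hg.dir i (F.φ i ω)
    rw [F.inv] at hd2
    simp only [Set.mem_inter_iff, F.inv]
    by_cases a1 : ω ∈ A <;> by_cases a2 : F.φ i ω ∈ A <;> by_cases u1 : ω ∈ U <;>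
      by_cases u2 : F.φ i ω ∈ U <;> simp_all <;> linarith
  have h2 : -∑ ω, (if ω ∈ A ∧ ω ∉ U then F.X g ω else 0) ≤
      ∑ ω, if ω ∈ A ∧ ω ∉ U then |F.X g ω| else 0 := by
    rw [← Finset.sum_neg_distrib]
    refine Finset.sum_le_sum fun ω _ => ?_
    split_ifs
    · exact neg_le_abs _
    · simp
  linarith

/-- the boundary of one set -/
lemma single (V : Set Ω) (g : ι → Ω → ℝ) (hg : F.Dir V g) :
    2 * F.bd V ≤ ∑ ω, |F.X g ω| := by
  have h1 : 2 * F.bd V + ∑ ω, (if ω ∈ V then -F.X g ω else F.X g ω) ≤ 0 := by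
    have e1 : F.bd V = ∑ i, ∑ ω, if ω ∈ V ∧ F.φ i ω ∉ V then (1 : ℝ) else 0 :=
      Finset.sum_comm
    have e2 : ∑ ω, (if ω ∈ V then -F.X g ω else F.X g ω) =
        ∑ i, ∑ ω, if ω ∈ V then -(F.s i ω * g i ω) else F.s i ω * g i ω := by
      rw [Finset.sum_comm]
      refine Finset.sum_congr rfl fun ω _ => ?_
      unfold X
      split_ifs
      · rw [Finset.sum_neg_distrib]
      · rfl
    rw [e1, e2, Finset.mul_sum, ← Finset.sum_add_distrib]
    refine Finset.sum_nonpos fun i _ => ?_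
    rw [Finset.mul_sum, ← Finset.sum_add_distrib]
    refine F.pair i _ fun ω => ?_
    have hs := F.sg_flip hg i ω
    have hb := F.abs_sg hg i ω
    have hd1 := hg.dir i ω
    have hd2 := hg.dir i (F.φ i ω)
    rw [F.inv] at hd2
    simp only [F.inv]
    by_cases u1 : ω ∈ V <;> by_cases u2 : F.φ i ω ∈ V <;> simp_all <;> linarith
  have h2 : -∑ ω, (if ω ∈ V then -F.X g ω else F.X g ω) ≤ ∑ ω, |F.X g ω| := by
    rw [← Finset.sum_neg_distrib]
    refine Finset.sum_le_sum fun ω _ => ?_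
    split_ifs
    · rw [neg_neg]; exact le_abs_self _
    · exact neg_le_abs _
  linarith

/-- induction over the conditions -/
lemma potential (c b : ℝ) (hc : 0 ≤ c) (U : ℕ → Set Ω) (g : ℕ → ι → Ω → ℝ) (k : ℕ)
    (hg : ∀ m < k, F.Dir (U m) (g m))
    (hX : ∀ m < k, ∀ D : Set Ω, ∑ ω, (if ω ∈ D then |F.X (g m) ω| else 0) ≤ c * sz D + b) :
    F.bd {ω | ∀ m < k, ω ∈ U m} ≤ c * Fintype.card Ω + k * b := by
  have key : ∀ j ≤ k, F.bd {ω | ∀ m < j, ω ∈ U m} + c * sz {ω | ∀ m < j, ω ∈ U m} ≤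
      c * Fintype.card Ω + j * b := by
    intro j
    induction j with
    | zero =>
      intro _
      have e : {ω : Ω | ∀ m < 0, ω ∈ U m} = Set.univ := by
        ext ω; simp
      rw [e]
      have e1 : F.bd (Set.univ : Set Ω) = 0 := by
        unfold bd; simp
      have e2 : sz (Set.univ : Set Ω) = Fintype.card Ω := by
        unfold sz; simp
      rw [e1, e2]; simp
    | succ j ih =>
      intro hj
      have h1 := ih (by omega)
      set A : Set Ω := {ω | ∀ m < j, ω ∈ U m} with hA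
      have e : {ω : Ω | ∀ m < j + 1, ω ∈ U m} = A ∩ U j := by
        ext ω
        simp only [Set.mem_ofPred_eq, Set.mem_inter_iff, hA]
        constructor
        · intro h
          exact ⟨fun m hm => h m (by omega), h j (by omega)⟩
        · rintro ⟨h, h'⟩ m hm
          rcases Nat.lt_succ_iff_lt_or_eq.1 hm with h3 | h3
          · exact h m h3
          · rw [h3]; exact h'
      rw [e]
      have h2 := F.step A (U j) (g j) (hg j (by omega))
      obtain ⟨D, hD⟩ : ∃ D : Set Ω, D = A \ U j := ⟨_, rfl⟩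
      have h3 := hX j (by omega) D
      have h4 : sz D + sz (A ∩ U j) = sz A := by
        unfold sz
        rw [← Finset.sum_add_distrib]
        refine Finset.sum_congr rfl fun ω _ => ?_
        by_cases a : ω ∈ A <;> by_cases u : ω ∈ U j <;> simp [hD, a, u]
      have h5 : F.bd (A ∩ U j) ≤
          F.bd A + ∑ ω, if ω ∈ D then |F.X (g j) ω| else 0 := by
        refine h2.trans (le_of_eq ?_)
        congr 1
        refine Finset.sum_congr rfl fun ω _ => ?_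
        by_cases hω : ω ∈ A ∧ ω ∉ U j
        · rw [if_pos hω, if_pos (show ω ∈ D from hD ▸ hω)]
        · rw [if_neg hω, if_neg (show ω ∉ D from hD ▸ hω)]
      have h6 : c * sz A = c * sz D + c * sz (A ∩ U j) := by rw [← h4]; ring
      have h7 : ((j + 1 : ℕ) : ℝ) * b = j * b + b := by push_cast; ring
      rw [h7]
      linarith
  have := key k le_rfl
  have h0 := mul_nonneg hc (sz_nonneg {ω : Ω | ∀ m < k, ω ∈ U m})
  linarith

/-- Boolean combinations -/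
lemma comb (r : ℕ) (V : Fin r → Set Ω) (S : Set Ω)
    (h : ∀ ω i, (∀ j, ω ∈ V j ↔ F.φ i ω ∈ V j) → ω ∈ S → F.φ i ω ∈ S) :
    F.bd S ≤ ∑ j, F.bd (V j) := by
  have e1 : ∀ V : Set Ω, F.bd V = ∑ i, ∑ ω, if ω ∈ V ∧ F.φ i ω ∉ V then (1 : ℝ) else 0 :=
    fun V => Finset.sum_comm
  have h1 : F.bd S - ∑ j, F.bd (V j) ≤ 0 := by
    have e3 : ∑ j, F.bd (V j) =
        ∑ i, ∑ ω, ∑ j, if ω ∈ V j ∧ F.φ i ω ∉ V j then (1 : ℝ) else 0 := by
      simp only [e1]
      rw [Finset.sum_comm]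
      exact Finset.sum_congr rfl fun i _ => Finset.sum_comm
    rw [e3, e1, ← Finset.sum_sub_distrib]
    refine Finset.sum_nonpos fun i _ => ?_
    rw [← Finset.sum_sub_distrib]
    refine F.pair i _ fun ω => ?_
    have hh : ∀ (j : Fin r) (ω : Ω), (0 : ℝ) ≤ if ω ∈ V j ∧ F.φ i ω ∉ V j then (1 : ℝ) else 0 :=
      fun j ω => by split_ifs <;> norm_num
    have hn : ∀ ω : Ω, 0 ≤ ∑ j, if ω ∈ V j ∧ F.φ i ω ∉ V j then (1 : ℝ) else 0 :=
      fun ω => Finset.sum_nonneg fun j _ => hh j ω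
    have n1 := hn ω
    have n2 := hn (F.φ i ω)
    simp only [F.inv] at n2 ⊢
    by_cases hc : ∀ j, ω ∈ V j ↔ F.φ i ω ∈ V j
    · have a1 := h ω i hc
      have a2 := h (F.φ i ω) i (fun j => by rw [F.inv]; exact (hc j).symm)
      rw [F.inv] at a2
      have b1 : ¬ (ω ∈ S ∧ F.φ i ω ∉ S) := fun h => h.2 (a1 h.1)
      have b2 : ¬ (F.φ i ω ∈ S ∧ ω ∉ S) := fun h => h.2 (a2 h.1)
      rw [if_neg b1, if_neg b2]
      linarith
    · push Not at hc
      obtain ⟨j, hj⟩ := hc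
      have b0 : (if ω ∈ S ∧ F.φ i ω ∉ S then (1 : ℝ) else 0) + (if F.φ i ω ∈ S ∧ ω ∉ S then (1 : ℝ) else 0) ≤ 1 := by
        by_cases c1 : ω ∈ S <;> by_cases c2 : F.φ i ω ∈ S <;> simp [c1, c2]
      have b1 : 1 ≤ (∑ j, if ω ∈ V j ∧ F.φ i ω ∉ V j then (1 : ℝ) else 0) +
          ∑ j, if F.φ i ω ∈ V j ∧ ω ∉ V j then (1 : ℝ) else 0 := by
        rw [← Finset.sum_add_distrib]
        have c0 : ∀ j' ∈ (Finset.univ : Finset (Fin r)), (0 : ℝ) ≤
            (if ω ∈ V j' ∧ F.φ i ω ∉ V j' then (1 : ℝ) else 0) +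
              (if F.φ i ω ∈ V j' ∧ ω ∉ V j' then (1 : ℝ) else 0) := by
          intro j' _
          split_ifs <;> norm_num
        refine le_trans ?_ (Finset.single_le_sum c0 (Finset.mem_univ j))
        rcases hj with ⟨c1, c2⟩ | ⟨c1, c2⟩ <;> simp [c1, c2]
      linarith
  linarith

end Flips

end Pool.Agent.J6H21.AS
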