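import Pool.Agent.J6H21.AS.Mom

/-!
# Functions whose differences of some order have constant sign
-/

set_option autoImplicit false

namespace Pool.Agent.J6H21.AS

open Finset Classical

namespace Flips

variable {Ω ι : Type} [Fintype Ω] [Fintype ι] (F : Flips Ω ι)

/-- differences -/
def diff (i : ι) (h : Ω → ℝ) (ω : Ω) : ℝ := F.s i ω * (h ω - h (F.φ i ω))

/-- the differences of order `k` have constant sign -/
def CS : ℕ → (Ω → ℝ) → Prop
  | 0, h => ∃ g : Ω → ℝ, (∀ ω, g ω = 1 ∨ g ω = -1) ∧ (∀ i ω, g (F.φ i ω) = g ω) ∧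
      ∀ ω, 0 ≤ g ω * h ω
  | k + 1, h => ∀ i, CS k (F.diff i h)

omit [Fintype Ω] [Fintype ι] in
lemma diff_flip (i : ι) (h : Ω → ℝ) (ω : Ω) : F.diff i h (F.φ i ω) = F.diff i h ω := by
  unfold diff
  rw [F.s_self, F.inv]; ring

omit [Fintype Ω] [Fintype ι] in
lemma dir_one (h : Ω → ℝ) (hh : F.CS 1 h) :
    ∃ g : ι → Ω → ℝ, F.Dir {ω | 0 < h ω} g ∧ ∀ i j ω, g i (F.φ j ω) = g i ω := by
  have hh' : ∀ i, ∃ g : Ω → ℝ, (∀ ω, g ω = 1 ∨ g ω = -1) ∧ (∀ i ω, g (F.φ i ω) = g ω) ∧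
      ∀ ω, 0 ≤ g ω * F.diff i h ω := hh
  choose g h1 h2 h3 using hh'
  refine ⟨g, ⟨h1, fun i ω => h2 i i ω, ?_⟩, fun i j ω => h2 i j ω⟩
  intro i ω hω hφ
  have hω' : h ω ≤ 0 := not_lt.1 hω
  have hφ' : 0 < h (F.φ i ω) := hφ
  have h4 := h3 i ω
  unfold diff at h4
  rcases F.s_abs i ω with a | a <;> rcases h1 i ω with b | b <;> rw [a, b] at h4 <;>
    rw [a, b] <;> first | (exfalso; linarith) | norm_num

/-- the sign of the differences -/
noncomputable def sg (h : Ω → ℝ) (i : ι) (ω : Ω) : ℝ := if 0 < F.diff i h ω then 1 else -1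

omit [Fintype Ω] [Fintype ι] in
lemma dir_sg (h : Ω → ℝ) : F.Dir {ω | 0 < h ω} (F.sg h) := by
  refine ⟨?_, ?_, ?_⟩
  · intro i ω
    unfold sg
    split_ifs <;> simp
  · intro i ω
    unfold sg
    rw [F.diff_flip]
  · intro i ω hω hφ
    have hω' : h ω ≤ 0 := not_lt.1 hω
    have hφ' : 0 < h (F.φ i ω) := hφ
    unfold sg diff
    rcases F.s_abs i ω with a | a <;> rw [a]
    · rw [if_neg (by linarith)]; norm_num
    · rw [if_pos (by linarith)]; norm_num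

lemma bd_le_of_second (V : Set Ω) (g : ι → Ω → ℝ) (hg : F.Dir V g) (Q : ℝ) (hQ : 0 < Q)
    (h2 : ∑ ω, (F.X g ω) ^ 2 ≤ Q * Fintype.card Ω) :
    2 * F.bd V ≤ Fintype.card Ω * Real.sqrt Q := by
  refine (F.single V g hg).trans ?_
  set c : ℝ := Real.sqrt Q with hc
  have hcpos : 0 < c := Real.sqrt_pos.2 hQ
  have hcsq : c * c = Q := Real.mul_self_sqrt hQ.le
  have h1 : ∀ ω, |F.X g ω| ≤ c / 2 + 1 / (2 * c) * (F.X g ω) ^ 2 := by
    intro ω
    rw [← sq_abs]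
    set y := |F.X g ω|
    have : 0 ≤ (c - y) ^ 2 / (2 * c) := by positivity
    have e : (c - y) ^ 2 / (2 * c) = c / 2 + 1 / (2 * c) * y ^ 2 - y := by
      field_simp; ring
    linarith
  refine (Finset.sum_le_sum fun ω _ => h1 ω).trans ?_
  rw [Finset.sum_add_distrib, ← Finset.mul_sum]
  have h6 : 0 ≤ 1 / (2 * c) := by positivity
  have h7 := mul_le_mul_of_nonneg_left h2 h6
  have e1 : 1 / (2 * c) * (Q * Fintype.card Ω) = c / 2 * Fintype.card Ω := by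
    rw [← hcsq]; field_simp
  simp only [Finset.sum_const, Finset.card_univ, nsmul_eq_mul]
  rw [e1] at h7
  linarith

lemma bd_changes (V : Set Ω) :
    ∑ ω, ∑ j, (if ¬ (ω ∈ V ↔ F.φ j ω ∈ V) then (1 : ℝ) else 0) = 2 * F.bd V := by
  have e : 2 * F.bd V = ∑ ω, ∑ j, ((if ω ∈ V ∧ F.φ j ω ∉ V then (1 : ℝ) else 0) +
      if F.φ j ω ∈ V ∧ ω ∉ V then (1 : ℝ) else 0) := by
    have e1 : F.bd V = ∑ ω, ∑ j, if F.φ j ω ∈ V ∧ ω ∉ V then (1 : ℝ) else 0 := by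
      unfold bd
      rw [Finset.sum_comm]
      conv_rhs => rw [Finset.sum_comm]
      refine Finset.sum_congr rfl fun j _ => ?_
      rw [← F.sum_flip j (fun ω => if F.φ j ω ∈ V ∧ ω ∉ V then (1 : ℝ) else 0)]
      simp only [F.inv]
    have e2 : 2 * F.bd V = F.bd V + F.bd V := by ring
    rw [e2]
    nth_rewrite 2 [e1]
    unfold bd
    rw [← Finset.sum_add_distrib]
    exact Finset.sum_congr rfl fun ω _ => Finset.sum_add_distrib.symm
  rw [e]
  refine Finset.sum_congr rfl fun ω _ => Finset.sum_congr rfl fun j _ => ?_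
  by_cases a : ω ∈ V <;> by_cases b : F.φ j ω ∈ V <;> simp [a, b]

/-- sensitivity of functions with differences of constant sign -/
theorem deg (hn : 1 ≤ Fintype.card ι) (D : ℕ) : ∀ h : Ω → ℝ, F.CS (D + 1) h →
    ∃ g : ι → Ω → ℝ, F.Dir {ω | 0 < h ω} g ∧
      ∑ ω, (F.X g ω) ^ 2 ≤
        3 * ((Fintype.card ι : ℕ) : ℝ) ^ ((2 : ℝ) - (1 / 2) ^ D) * Fintype.card Ω := by
  set n : ℝ := ((Fintype.card ι : ℕ) : ℝ) with hnn
  have hn1 : (1 : ℝ) ≤ n := by rw [hnn]; exact_mod_cast hn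
  have hle : ∀ D : ℕ, n ≤ n ^ ((2 : ℝ) - (1 / 2) ^ D) := by
    intro D
    have : ((1 : ℝ) / 2) ^ D ≤ 1 := pow_le_one₀ (by norm_num) (by norm_num)
    calc n = n ^ (1 : ℝ) := (Real.rpow_one n).symm
      _ ≤ _ := Real.rpow_le_rpow_of_exponent_le hn1 (by linarith)
  induction D with
  | zero =>
    intro h hh
    obtain ⟨g, hg, hinv⟩ := F.dir_one h hh
    refine ⟨g, hg, ?_⟩
    have h2 := F.second _ g hg
    simp only [hinv, ne_eq, not_true_eq_false, if_false, Finset.sum_const_zero, add_zero] at h2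
    refine h2.trans ?_
    rw [← hnn]
    have := hle 0
    have hp : 0 < n ^ ((2 : ℝ) - (1 / 2) ^ 0) := by positivity
    have h0 : (0 : ℝ) ≤ Fintype.card Ω := Nat.cast_nonneg _
    refine mul_le_mul_of_nonneg_right ?_ h0
    generalize n ^ ((2 : ℝ) - (1 / 2) ^ 0) = y at this hp ⊢
    linarith
  | succ D ih =>
    intro h hh
    refine ⟨F.sg h, F.dir_sg h, ?_⟩
    have h2 := F.second _ (F.sg h) (F.dir_sg h)
    have h3 : ∀ i, ∑ ω, ∑ j, (if F.sg h i (F.φ j ω) ≠ F.sg h i ω then (1 : ℝ) else 0) ≤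
        2 * n ^ ((1 : ℝ) - (1 / 2) ^ (D + 1)) * Fintype.card Ω := by
      intro i
      obtain ⟨g, hg, hX⟩ := ih (F.diff i h) (hh i)
      have h4 := F.bd_le_of_second _ g hg _ (by positivity) hX
      have h5 := F.bd_changes {ω | 0 < F.diff i h ω}
      have h6 : ∑ ω, ∑ j, (if F.sg h i (F.φ j ω) ≠ F.sg h i ω then (1 : ℝ) else 0) =
          ∑ ω, ∑ j, (if ¬ (ω ∈ {ω | 0 < F.diff i h ω} ↔ F.φ j ω ∈ {ω | 0 < F.diff i h ω})
            then (1 : ℝ) else 0) := by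
        refine Finset.sum_congr rfl fun ω _ => Finset.sum_congr rfl fun j _ => ?_
        simp only [Set.mem_ofPred_eq]
        unfold sg
        by_cases a : 0 < F.diff i h ω <;> by_cases b : 0 < F.diff i h (F.φ j ω) <;>
          simp [a, b] <;> norm_num
      rw [h6, h5]
      refine h4.trans ?_
      rw [mul_comm]
      refine mul_le_mul_of_nonneg_right ?_ (Nat.cast_nonneg _)
      have e : 3 * n ^ ((2 : ℝ) - (1 / 2) ^ D) = 3 * (n ^ ((1 : ℝ) - (1 / 2) ^ (D + 1))) ^ 2 := by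
        rw [← Real.rpow_natCast (n ^ ((1 : ℝ) - (1 / 2) ^ (D + 1))) 2, ← Real.rpow_mul (by linarith)]
        congr 2
        push_cast
        ring
      rw [e]
      refine Real.sqrt_le_iff.2 ⟨by positivity, ?_⟩
      have : 0 ≤ (n ^ ((1 : ℝ) - (1 / 2) ^ (D + 1))) ^ 2 := by positivity
      nlinarith
    have h7 : ∑ i, ∑ ω, ∑ j, (if F.sg h i (F.φ j ω) ≠ F.sg h i ω then (1 : ℝ) else 0) ≤
        n * (2 * n ^ ((1 : ℝ) - (1 / 2) ^ (D + 1)) * Fintype.card Ω) := by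
      refine (Finset.sum_le_sum fun i _ => h3 i).trans (le_of_eq ?_)
      simp only [Finset.sum_const, Finset.card_univ, nsmul_eq_mul, hnn]
    have h8 : n * n ^ ((1 : ℝ) - (1 / 2) ^ (D + 1)) = n ^ ((2 : ℝ) - (1 / 2) ^ (D + 1)) := by
      have : (2 : ℝ) - (1 / 2) ^ (D + 1) = 1 + (1 - (1 / 2) ^ (D + 1)) := by ring
      rw [this, Real.rpow_add (by linarith), Real.rpow_one]
    have h9 : n * (2 * n ^ ((1 : ℝ) - (1 / 2) ^ (D + 1)) * Fintype.card Ω) =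
        2 * n ^ ((2 : ℝ) - (1 / 2) ^ (D + 1)) * Fintype.card Ω := by
      rw [← h8]; ring
    rw [h9] at h7
    rw [← hnn] at h2
    have h10 := mul_le_mul_of_nonneg_right (hle (D + 1)) (Nat.cast_nonneg (Fintype.card Ω) : (0 : ℝ) ≤ _)
    linarith

/-- a set without edges in a set `V` -/
lemma half (T V : Set Ω) (hTV : T ⊆ V) (hT : ∀ ω ∈ T, ∀ i, F.φ i ω ∉ T) :
    2 * (Fintype.card ι * sz T) ≤ Fintype.card ι * sz V + F.bd V := by
  have e0 : ∀ W : Set Ω, (Fintype.card ι : ℝ) * sz W = ∑ _i : ι, ∑ ω, if ω ∈ W then (1 : ℝ) else 0 := by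
    intro W
    rw [Finset.sum_const, Finset.card_univ, nsmul_eq_mul]
    rfl
  have e1 : F.bd V = ∑ i, ∑ ω, if ω ∈ V ∧ F.φ i ω ∉ V then (1 : ℝ) else 0 := Finset.sum_comm
  have key : 2 * (Fintype.card ι * sz T) - Fintype.card ι * sz V - F.bd V ≤ 0 := by
    rw [e0, e0, e1, Finset.mul_sum, ← Finset.sum_sub_distrib, ← Finset.sum_sub_distrib]
    refine Finset.sum_nonpos fun i _ => ?_
    rw [Finset.mul_sum, ← Finset.sum_sub_distrib, ← Finset.sum_sub_distrib]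
    refine F.pair i _ fun ω => ?_
    simp only [F.inv]
    have h1 := hT ω
    have h2 := hT (F.φ i ω)
    have h3 := @hTV ω
    have h4 := @hTV (F.φ i ω)
    by_cases a : ω ∈ T
    · have b : F.φ i ω ∉ T := h1 a i
      have c : ω ∈ V := h3 a
      by_cases d : F.φ i ω ∈ V <;> simp [a, b, c, d] <;> norm_num
    · by_cases b : F.φ i ω ∈ T
      · have c : F.φ i ω ∈ V := h4 b
        by_cases d : ω ∈ V <;> simp [a, b, c, d] <;> norm_num
      · by_cases c : ω ∈ V <;> by_cases d : F.φ i ω ∈ V <;> simp [a, b, c, d] <;> norm_num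
  linarith

/-- the intersection of `k` conditions of order `D + 1` -/
theorem deg_inter (hn : 1 ≤ Fintype.card ι) (D k : ℕ) (hk : 1 ≤ k) (h : ℕ → Ω → ℝ)
    (hh : ∀ m < k, F.CS (D + 1) (h m)) :
    F.bd {ω | ∀ m < k, 0 < h m ω} ≤ Fintype.card Ω *
      (Fintype.card ι * (Real.sqrt (3 * k) * ((Fintype.card ι : ℕ) : ℝ) ^ (-((1 : ℝ) / 2) ^ (D + 1)))) := by
  have hn1 : (1 : ℝ) ≤ ((Fintype.card ι : ℕ) : ℝ) := by exact_mod_cast hn
  have hg : ∀ m : ℕ, ∃ g : ι → Ω → ℝ, m < k → F.Dir {ω | 0 < h m ω} g ∧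
      ∑ ω, (F.X g ω) ^ 2 ≤
        3 * ((Fintype.card ι : ℕ) : ℝ) ^ ((2 : ℝ) - (1 / 2) ^ D) * Fintype.card Ω := by
    intro m
    by_cases hm : m < k
    · obtain ⟨g, h1, h2⟩ := F.deg hn D (h m) (hh m hm)
      exact ⟨g, fun _ => ⟨h1, h2⟩⟩
    · exact ⟨fun _ _ => 0, fun h => absurd h hm⟩
  choose g hg using hg
  have h1 := F.kane2 k hk (3 * ((Fintype.card ι : ℕ) : ℝ) ^ ((2 : ℝ) - (1 / 2) ^ D)) (by positivity)
    (fun m => {ω | 0 < h m ω}) g (fun m hm => (hg m hm).1) (fun m hm => (hg m hm).2)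
  refine h1.trans (le_of_eq ?_)
  congr 1
  set n : ℝ := ((Fintype.card ι : ℕ) : ℝ)
  have e : (k : ℝ) * (3 * n ^ ((2 : ℝ) - (1 / 2) ^ D)) =
      3 * k * (n * n ^ (-((1 : ℝ) / 2) ^ (D + 1))) ^ 2 := by
    have e1 : n * n ^ (-((1 : ℝ) / 2) ^ (D + 1)) = n ^ ((1 : ℝ) - (1 / 2) ^ (D + 1)) := by
      rw [sub_eq_add_neg, Real.rpow_add (by linarith), Real.rpow_one]
    rw [e1, ← Real.rpow_natCast (n ^ ((1 : ℝ) - (1 / 2) ^ (D + 1))) 2, ← Real.rpow_mul (by linarith)]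
    have : ((1 : ℝ) - (1 / 2) ^ (D + 1)) * ((2 : ℕ) : ℝ) = 2 - (1 / 2) ^ D := by
      push_cast; ring
    rw [this]; ring
  rw [e, Real.sqrt_mul (by positivity), Real.sqrt_sq (by positivity)]
  ring

/-- the intersection of `k` conditions of order one -/
theorem one_inter (hn : 1 ≤ Fintype.card ι) (k : ℕ) (hk : 1 ≤ k) (h : ℕ → Ω → ℝ)
    (hh : ∀ m < k, F.CS 1 (h m)) :
    F.bd {ω | ∀ m < k, 0 < h m ω} ≤ Fintype.card Ω *
      (Fintype.card ι * Real.sqrt (2 * Real.log (2 * k) / Fintype.card ι)) := by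
  have hn1 : (1 : ℝ) ≤ ((Fintype.card ι : ℕ) : ℝ) := by exact_mod_cast hn
  have hk1 : (1 : ℝ) ≤ k := by exact_mod_cast hk
  have hg : ∀ m : ℕ, ∃ g : ι → Ω → ℝ, m < k → F.Dir {ω | 0 < h m ω} g ∧
      ∀ i j ω, g i (F.φ j ω) = g i ω := by
    intro m
    by_cases hm : m < k
    · obtain ⟨g, h1, h2⟩ := F.dir_one (h m) (hh m hm)
      exact ⟨g, fun _ => ⟨h1, h2⟩⟩
    · exact ⟨fun _ _ => 0, fun h => absurd h hm⟩
  choose g hg using hg
  have h1 := F.kane k hk hn (fun m => {ω | 0 < h m ω}) g (fun m hm => (hg m hm).1)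
    (fun m hm => (hg m hm).2)
  refine h1.trans (le_of_eq ?_)
  congr 1
  set n : ℝ := ((Fintype.card ι : ℕ) : ℝ)
  have e : 2 * n * Real.log (2 * k) = n ^ 2 * (2 * Real.log (2 * k) / n) := by
    field_simp
  rw [e, Real.sqrt_mul (by positivity), Real.sqrt_sq (by positivity)]

end Flips

end Pool.Agent.J6H21.AS
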