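import Pool.Agent.J6H21.AS.Base

/-!
# Moments of sums of signs times directions
-/

set_option autoImplicit false

namespace Pool.Agent.J6H21.AS

open Finset Classical

namespace Flips

variable {Ω ι : Type} [Fintype Ω] [Fintype ι] (F : Flips Ω ι)

/-- exponential moments of sums over subsets, constant directions -/
lemma expo_aux (g : ι → Ω → ℝ) (h1 : ∀ i ω, g i ω = 1 ∨ g i ω = -1)
    (hinv : ∀ i j ω, g i (F.φ j ω) = g i ω) (l : ℝ) (I : Finset ι) :
    ∑ ω, Real.exp (l * ∑ i ∈ I, F.s i ω * g i ω) ≤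
      Fintype.card Ω * Real.exp (l ^ 2 * (I.card : ℝ) / 2) := by
  induction I using Finset.induction_on with
  | empty => simp
  | insert j I hj ih =>
    have e0 : ∀ ω, ∑ i ∈ I, F.s i (F.φ j ω) * g i (F.φ j ω) = ∑ i ∈ I, F.s i ω * g i ω := by
      intro ω
      refine Finset.sum_congr rfl fun i hi => ?_
      rw [hinv, F.s_ne j i ω (fun h => hj (h ▸ hi))]
    have h2 : ∀ ω, Real.exp (l * ∑ i ∈ insert j I, F.s i ω * g i ω) +
        Real.exp (l * ∑ i ∈ insert j I, F.s i (F.φ j ω) * g i (F.φ j ω)) ≤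
        2 * (Real.exp (l ^ 2 / 2) * Real.exp (l * ∑ i ∈ I, F.s i ω * g i ω)) := by
      intro ω
      rw [Finset.sum_insert hj, Finset.sum_insert hj, e0, hinv, F.s_self]
      set Y := ∑ i ∈ I, F.s i ω * g i ω
      have e1 : Real.exp (l * (F.s j ω * g j ω + Y)) + Real.exp (l * (-F.s j ω * g j ω + Y)) =
          2 * (Real.cosh (l * (F.s j ω * g j ω)) * Real.exp (l * Y)) := by
        rw [mul_add, mul_add, Real.exp_add, Real.exp_add, Real.cosh_eq]
        have : l * (-F.s j ω * g j ω) = -(l * (F.s j ω * g j ω)) := by ring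
        rw [this]; ring
      rw [e1]
      have e2 : (l * (F.s j ω * g j ω)) ^ 2 = l ^ 2 := by
        rcases F.s_abs j ω with h | h <;> rcases h1 j ω with h' | h' <;> rw [h, h'] <;> ring
      have e3 := Real.cosh_le_exp_half_sq (l * (F.s j ω * g j ω))
      rw [e2] at e3
      have := mul_le_mul_of_nonneg_right e3 (Real.exp_pos (l * Y)).le
      linarith
    have h3 : ∑ ω, (Real.exp (l * ∑ i ∈ insert j I, F.s i ω * g i ω) +
        Real.exp (l * ∑ i ∈ insert j I, F.s i (F.φ j ω) * g i (F.φ j ω))) ≤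
        ∑ ω, 2 * (Real.exp (l ^ 2 / 2) * Real.exp (l * ∑ i ∈ I, F.s i ω * g i ω)) :=
      Finset.sum_le_sum fun ω _ => h2 ω
    rw [Finset.sum_add_distrib,
      F.sum_flip j (fun ω => Real.exp (l * ∑ i ∈ insert j I, F.s i ω * g i ω)),
      ← Finset.mul_sum, ← Finset.mul_sum] at h3
    have h4 := mul_le_mul_of_nonneg_left ih (Real.exp_pos (l ^ 2 / 2)).le
    rw [Finset.card_insert_of_notMem hj]
    have h5 : Real.exp (l ^ 2 / 2) * (Fintype.card Ω * Real.exp (l ^ 2 * (I.card : ℝ) / 2)) =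
        Fintype.card Ω * Real.exp (l ^ 2 * ((I.card + 1 : ℕ) : ℝ) / 2) := by
      have : l ^ 2 * ((I.card + 1 : ℕ) : ℝ) / 2 = l ^ 2 / 2 + l ^ 2 * (I.card : ℝ) / 2 := by
        push_cast; ring
      rw [this, Real.exp_add]; ring
    linarith

lemma expo (g : ι → Ω → ℝ) (h1 : ∀ i ω, g i ω = 1 ∨ g i ω = -1)
    (hinv : ∀ i j ω, g i (F.φ j ω) = g i ω) (l : ℝ) :
    ∑ ω, Real.exp (l * |F.X g ω|) ≤
      2 * (Fintype.card Ω * Real.exp (l ^ 2 * (Fintype.card ι : ℝ) / 2)) := by
  have a1 := F.expo_aux g h1 hinv l Finset.univ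
  have a2 := F.expo_aux g h1 hinv (-l) Finset.univ
  rw [neg_sq] at a2
  rw [Finset.card_univ] at a1 a2
  have h : ∑ ω, Real.exp (l * |F.X g ω|) ≤
      ∑ ω, (Real.exp (l * ∑ i, F.s i ω * g i ω) + Real.exp (-l * ∑ i, F.s i ω * g i ω)) := by
    refine Finset.sum_le_sum fun ω _ => ?_
    unfold X
    rcases abs_cases (∑ i, F.s i ω * g i ω) with ⟨h, _⟩ | ⟨h, _⟩ <;> rw [h]
    · have := Real.exp_pos (-l * ∑ i, F.s i ω * g i ω)
      linarith
    · have := Real.exp_pos (l * ∑ i, F.s i ω * g i ω)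
      have e : l * -∑ i, F.s i ω * g i ω = -l * ∑ i, F.s i ω * g i ω := by ring
      rw [e]; linarith
  rw [Finset.sum_add_distrib] at h
  linarith

/-- the second moment -/
lemma second (U : Set Ω) (g : ι → Ω → ℝ) (hg : F.Dir U g) :
    ∑ ω, (F.X g ω) ^ 2 ≤ Fintype.card ι * Fintype.card Ω +
      ∑ i, ∑ ω, ∑ j, if g i (F.φ j ω) ≠ g i ω then (1 : ℝ) else 0 := by
  have e1 : ∑ ω, (F.X g ω) ^ 2 = ∑ i, ∑ j, ∑ ω, F.s i ω * g i ω * (F.s j ω * g j ω) := by
    have : ∀ ω, (F.X g ω) ^ 2 = ∑ i, ∑ j, F.s i ω * g i ω * (F.s j ω * g j ω) := by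
      intro ω
      rw [sq]
      unfold X
      rw [Finset.sum_mul_sum]
    simp only [this]
    rw [Finset.sum_comm]
    exact Finset.sum_congr rfl fun i _ => Finset.sum_comm
  have e2 : ∑ i, ∑ ω, ∑ j, (if g i (F.φ j ω) ≠ g i ω then (1 : ℝ) else 0) =
      ∑ i, ∑ j, ∑ ω, if g i (F.φ j ω) ≠ g i ω then (1 : ℝ) else 0 :=
    Finset.sum_congr rfl fun i _ => Finset.sum_comm
  have e3 : (Fintype.card ι : ℝ) * Fintype.card Ω =
      ∑ i : ι, ∑ j : ι, if i = j then (Fintype.card Ω : ℝ) else 0 := by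
    simp
  rw [e1, e2, e3, ← Finset.sum_add_distrib]
  refine Finset.sum_le_sum fun i _ => ?_
  rw [← Finset.sum_add_distrib]
  refine Finset.sum_le_sum fun j _ => ?_
  have hs : ∀ i ω, F.s i ω * F.s i ω = 1 := fun i ω => by
    rcases F.s_abs i ω with h | h <;> rw [h] <;> norm_num
  have hg1 : ∀ i ω, g i ω * g i ω = 1 := fun i ω => by
    rcases hg.one i ω with h | h <;> rw [h] <;> norm_num
  by_cases hij : i = j
  · subst hij
    rw [if_pos rfl]
    have : ∀ ω, F.s i ω * g i ω * (F.s i ω * g i ω) = 1 := by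
      intro ω
      calc F.s i ω * g i ω * (F.s i ω * g i ω) = (F.s i ω * F.s i ω) * (g i ω * g i ω) := by ring
        _ = 1 := by rw [hs, hg1]; norm_num
    simp only [this]
    have h0 : 0 ≤ ∑ ω, if g i (F.φ i ω) ≠ g i ω then (1 : ℝ) else 0 :=
      Finset.sum_nonneg fun ω _ => by split_ifs <;> norm_num
    simp only [Finset.sum_const, Finset.card_univ, nsmul_eq_mul, mul_one]
    linarith
  · rw [if_neg hij, zero_add]
    have key : ∑ ω, (F.s i ω * g i ω * (F.s j ω * g j ω) -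
        if g i (F.φ j ω) ≠ g i ω then (1 : ℝ) else 0) ≤ 0 := by
      refine F.pair j _ fun ω => ?_
      rw [F.s_self, F.s_ne j i ω (fun h => hij h.symm), hg.inv, F.inv]
      by_cases hc : g i (F.φ j ω) = g i ω
      · rw [if_neg (by simpa using hc), if_neg (by simpa using hc.symm), hc]
        apply le_of_eq; ring
      · rw [if_pos hc, if_pos (fun h => hc h.symm)]
        rcases F.s_abs i ω with a | a <;> rcases F.s_abs j ω with b | b <;>
          rcases hg.one j ω with c | c <;> rcases hg.one i ω with d | d <;>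
          rcases hg.one i (F.φ j ω) with e | e <;> rw [a, b, c, d, e] <;> norm_num
    rw [Finset.sum_sub_distrib] at key
    linarith

/-- the boundary of an intersection of `k` sets with constant directions -/
theorem kane (k : ℕ) (hk : 1 ≤ k) (hn : 1 ≤ Fintype.card ι) (U : ℕ → Set Ω)
    (g : ℕ → ι → Ω → ℝ) (hg : ∀ m < k, F.Dir (U m) (g m))
    (hinv : ∀ m < k, ∀ i j ω, g m i (F.φ j ω) = g m i ω) :
    F.bd {ω | ∀ m < k, ω ∈ U m} ≤
      Fintype.card Ω * Real.sqrt (2 * Fintype.card ι * Real.log (2 * k)) := by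
  set n : ℝ := ((Fintype.card ι : ℕ) : ℝ) with hnn
  have hn1 : (1 : ℝ) ≤ n := by rw [hnn]; exact_mod_cast hn
  have hk1 : (1 : ℝ) ≤ k := by exact_mod_cast hk
  set L : ℝ := Real.log (2 * k) with hL
  have hL0 : Real.log 2 ≤ L := Real.log_le_log (by norm_num) (by linarith)
  have hl2 := Real.log_two_gt_d9
  have hLpos : 0 < L := by linarith
  set l : ℝ := Real.sqrt (2 * L / n) with hl
  have hlpos : 0 < l := Real.sqrt_pos.2 (by positivity)
  have hlsq : l ^ 2 = 2 * L / n := Real.sq_sqrt (by positivity)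
  have hln : l ^ 2 * n / 2 = L := by
    rw [hlsq]; field_simp
  have hexp : Real.exp L = 2 * k := Real.exp_log (by positivity)
  -- `M = (2k)²`
  set M : ℝ := (2 * k) ^ 2 with hM
  have hMpos : 0 < M := by positivity
  have hlogM : Real.log M = 2 * L := by
    rw [hM, Real.log_pow]; push_cast; ring
  have hc : 0 ≤ (2 * L - 1) / l := div_nonneg (by linarith) hlpos.le
  have hb : ∀ m < k, ∀ D : Set Ω, ∑ ω, (if ω ∈ D then |F.X (g m) ω| else 0) ≤
      (2 * L - 1) / l * sz D + 1 / (l * M) * (2 * (Fintype.card Ω * (2 * k))) := by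
    intro m hm D
    have h1 : ∀ ω, (if ω ∈ D then |F.X (g m) ω| else 0) ≤
        (2 * L - 1) / l * (if ω ∈ D then 1 else 0) + 1 / (l * M) * Real.exp (l * |F.X (g m) ω|) := by
      intro ω
      by_cases hD : ω ∈ D
      · rw [if_pos hD, if_pos hD]
        set y := |F.X (g m) ω|
        have h2 := Real.add_one_le_exp (l * y - Real.log M)
        rw [Real.exp_sub, Real.exp_log hMpos, hlogM] at h2
        have h3 : y = (l * y) / l := by field_simp
        rw [h3]
        have h4 : (l * y) / l ≤ (2 * L - 1 + Real.exp (l * y) / M) / l :=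
          div_le_div_of_nonneg_right (by linarith) hlpos.le
        refine h4.trans (le_of_eq ?_)
        have : l * (l * y / l) = l * y := by field_simp
        rw [this]
        field_simp
      · rw [if_neg hD, if_neg hD]
        positivity
    refine (Finset.sum_le_sum fun ω _ => h1 ω).trans ?_
    rw [Finset.sum_add_distrib, ← Finset.mul_sum, ← Finset.mul_sum]
    have h5 := F.expo (g m) (hg m hm).one (hinv m hm) l
    rw [← hnn, hln, hexp] at h5
    have h6 : 0 ≤ 1 / (l * M) := by positivity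
    have h7 := mul_le_mul_of_nonneg_left h5 h6
    unfold sz
    linarith
  have h := F.potential _ _ hc U g k hg hb
  refine h.trans (le_of_eq ?_)
  have e1 : k * (1 / (l * M) * (2 * (Fintype.card Ω * (2 * (k : ℝ))))) = Fintype.card Ω * (1 / l) := by
    rw [hM]; field_simp
  rw [e1]
  have e2 : (2 * L - 1) / l * Fintype.card Ω + Fintype.card Ω * (1 / l) =
      Fintype.card Ω * (2 * L / l) := by
    field_simp; ring
  rw [e2]
  congr 1
  rw [eq_comm, Real.sqrt_eq_iff_mul_self_eq (by positivity) (by positivity)]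
  have : 2 * L / l * (2 * L / l) = (2 * L) ^ 2 / l ^ 2 := by ring
  rw [this, hlsq]
  field_simp

/-- the boundary of an intersection of `k` sets, second moments -/
theorem kane2 (k : ℕ) (hk : 1 ≤ k) (Q : ℝ) (hQ : 0 < Q) (U : ℕ → Set Ω)
    (g : ℕ → ι → Ω → ℝ) (hg : ∀ m < k, F.Dir (U m) (g m))
    (h2 : ∀ m < k, ∑ ω, (F.X (g m) ω) ^ 2 ≤ Q * Fintype.card Ω) :
    F.bd {ω | ∀ m < k, ω ∈ U m} ≤ Fintype.card Ω * Real.sqrt (k * Q) := by
  have hk1 : (1 : ℝ) ≤ k := by exact_mod_cast hk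
  set c : ℝ := Real.sqrt (k * Q) with hc
  have hcpos : 0 < c := Real.sqrt_pos.2 (by positivity)
  have hcsq : c * c = k * Q := Real.mul_self_sqrt (by positivity)
  have hb : ∀ m < k, ∀ D : Set Ω, ∑ ω, (if ω ∈ D then |F.X (g m) ω| else 0) ≤
      c / 2 * sz D + 1 / (2 * c) * (Q * Fintype.card Ω) := by
    intro m hm D
    have h1 : ∀ ω, (if ω ∈ D then |F.X (g m) ω| else 0) ≤
        c / 2 * (if ω ∈ D then 1 else 0) + 1 / (2 * c) * (F.X (g m) ω) ^ 2 := by
      intro ω
      by_cases hD : ω ∈ D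
      · rw [if_pos hD, if_pos hD, ← sq_abs]
        set y := |F.X (g m) ω|
        have : 0 ≤ (c - y) ^ 2 / (2 * c) := by positivity
        have e : (c - y) ^ 2 / (2 * c) = c / 2 * 1 + 1 / (2 * c) * y ^ 2 - y := by
          field_simp; ring
        linarith
      · rw [if_neg hD, if_neg hD]
        positivity
    refine (Finset.sum_le_sum fun ω _ => h1 ω).trans ?_
    rw [Finset.sum_add_distrib, ← Finset.mul_sum, ← Finset.mul_sum]
    have h6 : 0 ≤ 1 / (2 * c) := by positivity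
    have h7 := mul_le_mul_of_nonneg_left (h2 m hm) h6
    unfold sz
    linarith
  have h := F.potential _ _ (by positivity) U g k hg hb
  refine h.trans (le_of_eq ?_)
  have e1 : k * (1 / (2 * c) * (Q * Fintype.card Ω)) = (c * c) / (2 * c) * Fintype.card Ω := by
    rw [hcsq]; ring
  rw [e1]
  field_simp
  ring

end Flips

end Pool.Agent.J6H21.AS
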