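import Pool.Agent.N389.PH.Trans

/-!
# The relative form, boundaries in the directions of few cells

A variant of `Pool.Agent.N389.PH.Exact.transfer`.
-/

set_option autoImplicit false

namespace Pool.Agent.J6H21.AS

open Finset Pool.Agent.N389.PH.Exact

variable {d m N : ℕ}

/-- the relative form, with explicit loss; only the boundary in the directions of `(N / m) m ^ d` cells is used -/
theorem transfer' (hd : 1 ≤ d) (hm : 1 ≤ m) (θ ε : ℝ) (h0 : 0 ≤ θ)
    (H : ∀ S₀ : Finset (Finset (Fin d → Fin m)), θ * 2 ^ (m ^ d) < S₀.card → Good S₀)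
    (F S : Finset (Finset (Fin d → Fin N))) (hJ : 1 ≤ N / m)
    (hε : ∀ K : Finset (Fin d → Fin N), K.card ≤ N / m * m ^ d →
      (2 : ℝ) ^ (m ^ d) * (bd F K).card ≤ ε * (N / m : ℕ) * F.card)
    (hS : (θ + ε) * F.card < (S ∩ F).card) : Good S := by
  classical
  obtain ⟨J, hJdef⟩ : ∃ J, J = N / m := ⟨_, rfl⟩
  rw [← hJdef] at hJ hε
  have hJN : J * m ≤ N := by rw [hJdef]; exact Nat.div_mul_le_self N m
  obtain ⟨ι, hι⟩ : ∃ ι : Fin J → Fin m → Fin N, ∀ j i, ((ι j i : Fin N) : ℕ) = j * m + i := by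
    refine ⟨fun j i => ⟨j * m + i, ?_⟩, fun _ _ => rfl⟩
    have h1 : ((j : ℕ) + 1) * m ≤ J * m := Nat.mul_le_mul_right m j.2
    have h2 := i.2
    have h3 : ((j : ℕ) + 1) * m = j * m + m := by ring
    omega
  have hinj : ∀ j, Function.Injective (ι j) := by
    intro j i i' h
    have := congrArg (fun t : Fin N => (t : ℕ)) h
    simp only [hι] at this
    exact Fin.ext (by omega)
  obtain ⟨W, hW⟩ : ∃ W : Fin J → Finset (Fin d → Fin N), W = fun j => univ.image (kap (ι j)) :=
    ⟨_, rfl⟩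
  have hWc : ∀ j, (W j).card = m ^ d := by
    intro j
    rw [hW]
    simp only
    rw [card_image_of_injective _ (kap_inj (hinj j)), card_univ, Fintype.card_fun,
      Fintype.card_fin, Fintype.card_fin]
  have hWd : ∀ j j', j ≠ j' → Disjoint (W j) (W j') := by
    intro j j' hjj
    rw [Finset.disjoint_left]
    intro x hx hx'
    rw [hW] at hx hx'
    obtain ⟨y, _, hy⟩ := mem_image.1 hx
    obtain ⟨y', _, hy'⟩ := mem_image.1 hx'
    have h1 := congrArg (fun t : Fin N => (t : ℕ)) (congrFun (hy.trans hy'.symm) ⟨0, hd⟩)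
    simp only [kap, hι] at h1
    apply hjj
    have h2 := (y ⟨0, hd⟩).2
    have h3 := (y' ⟨0, hd⟩).2
    have h4 : (j : ℕ) = (j * m + y ⟨0, hd⟩) / m := by
      rw [mul_comm, Nat.mul_add_div (by omega), Nat.div_eq_of_lt h2, add_zero]
    have h5 : (j' : ℕ) = (j' * m + y' ⟨0, hd⟩) / m := by
      rw [mul_comm, Nat.mul_add_div (by omega), Nat.div_eq_of_lt h3, add_zero]
    exact Fin.ext (by rw [h4, h5, h1])
  -- a block with a small boundary
  have hKc : (univ.biUnion W).card ≤ J * m ^ d := by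
    refine card_biUnion_le.trans (le_of_eq ?_)
    simp [hWc]
  have hsum : ∑ j, (bd F (W j)).card ≤ (bd F (univ.biUnion W)).card := by
    rw [← card_biUnion]
    · refine card_le_card fun q hq => ?_
      obtain ⟨j, _, hj⟩ := mem_biUnion.1 hq
      simp only [bd, mem_filter, mem_product] at hj ⊢
      exact ⟨⟨hj.1.1, mem_biUnion.2 ⟨j, mem_univ _, hj.1.2⟩⟩, hj.2⟩
    · intro j _ j' _ hjj
      show Disjoint _ _
      rw [Finset.disjoint_left]
      intro q hq hq'
      simp only [bd, mem_filter, mem_product] at hq hq'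
      exact Finset.disjoint_left.1 (hWd j j' hjj) hq.1.2 hq'.1.2
  obtain ⟨j, hj⟩ : ∃ j : Fin J, J * (bd F (W j)).card ≤ (bd F (univ.biUnion W)).card := by
    by_contra hcon
    push Not at hcon
    have hne : (univ : Finset (Fin J)).Nonempty := ⟨⟨0, hJ⟩, mem_univ _⟩
    have h1 := sum_lt_sum_of_nonempty hne fun j _ => hcon j
    have h3 : ∑ _j : Fin J, (bd F (univ.biUnion W)).card = J * (bd F (univ.biUnion W)).card := by
      rw [sum_const, card_univ, Fintype.card_fin, smul_eq_mul]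
    have h4 : ∑ j, J * (bd F (W j)).card = J * ∑ j, (bd F (W j)).card := by rw [mul_sum]
    rw [h3, h4] at h1
    have h2 := Nat.mul_le_mul_left J hsum
    omega
  have hJ0 : (0 : ℝ) < J := by exact_mod_cast hJ
  have hε' := hε _ hKc
  have hbad : ((F \ full F (W j)).card : ℝ) ≤ ε * F.card := by
    have h1 := bad_card F (W j)
    rw [hWc] at h1
    have h2 : J * (F \ full F (W j)).card ≤ 2 ^ (m ^ d) * (bd F (univ.biUnion W)).card := by
      calc J * (F \ full F (W j)).card ≤ J * (2 ^ (m ^ d) * (bd F (W j)).card) :=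
            Nat.mul_le_mul_left J h1
        _ = 2 ^ (m ^ d) * (J * (bd F (W j)).card) := by ring
        _ ≤ 2 ^ (m ^ d) * (bd F (univ.biUnion W)).card := Nat.mul_le_mul_left _ hj
    have h3 : (J : ℝ) * (F \ full F (W j)).card ≤ 2 ^ (m ^ d) * (bd F (univ.biUnion W)).card := by
      exact_mod_cast h2
    have h5 : ((F \ full F (W j)).card : ℝ) * J ≤ (ε * F.card) * J := by linarith
    exact le_of_mul_le_mul_right h5 hJ0
  have hgoodS : θ * F.card < (S ∩ full F (W j)).card := by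
    have h1 : S ∩ F ⊆ (S ∩ full F (W j)) ∪ (F \ full F (W j)) := by
      intro A hA
      rw [mem_inter] at hA
      rw [mem_union, mem_inter, mem_sdiff]
      by_cases h2 : A ∈ full F (W j)
      · exact Or.inl ⟨hA.1, h2⟩
      · exact Or.inr ⟨hA.2, h2⟩
    have h2 := (card_le_card h1).trans (card_union_le _ _)
    have h3 : ((S ∩ F).card : ℝ) ≤ (S ∩ full F (W j)).card + (F \ full F (W j)).card := by
      exact_mod_cast h2
    linarith
  obtain ⟨B, hB, hBS⟩ := exists_coset F S (W j) θ h0 hgoodS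
  rw [hWc] at hBS
  refine transport (ι j) (hinj j) S B (by rw [hW] at hB; exact hB) (H _ ?_)
  rw [card_transport (ι j) (hinj j) S B]
  rw [hW] at hBS
  exact hBS

/-- families whose boundary in the directions of few cells is small -/
theorem rel' (hd : 1 ≤ d) (θ θ' : ℝ) (h0 : 0 ≤ θ) (h : θ < θ') (HA : Above d θ) :
    ∃ c : ℝ, 0 < c ∧ ∃ s : ℝ, 1 ≤ s ∧ ∃ N₀ : ℕ, 1 ≤ N₀ ∧ ∀ N : ℕ, N₀ ≤ N →
      ∀ F S : Finset (Finset (Fin d → Fin N)),
        (∀ K : Finset (Fin d → Fin N), (K.card : ℝ) ≤ s * N →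
          ((bd F K).card : ℝ) ≤ c * N * F.card) → θ' * F.card < (S ∩ F).card → Good S := by
  obtain ⟨m, hm, H⟩ := HA ((θ + θ') / 2) (by linarith)
  have hm0 : (0 : ℝ) < m := by exact_mod_cast hm
  obtain ⟨ε, hε⟩ : ∃ ε : ℝ, ε = (θ' - θ) / 2 := ⟨_, rfl⟩
  have hε0 : 0 < ε := by rw [hε]; linarith
  refine ⟨ε / (2 * m * 2 ^ (m ^ d)), by positivity, (m : ℝ) ^ d,
    one_le_pow₀ (by exact_mod_cast hm), m, hm, fun N hN F S hL hS => ?_⟩
  have hJ : 1 ≤ N / m := (Nat.one_le_div_iff (by omega)).2 hN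
  refine transfer' hd hm ((θ + θ') / 2) ε (by linarith) H F S hJ ?_ ?_
  · intro K hK
    have hK' : (K.card : ℝ) ≤ (m : ℝ) ^ d * N := by
      have h1 : N / m * m ^ d ≤ N * m ^ d := Nat.mul_le_mul_right _ (Nat.div_le_self N m)
      have h2 : K.card ≤ m ^ d * N := by
        have := hK.trans h1
        rw [mul_comm (m ^ d)]
        exact this
      exact_mod_cast h2
    have h1 : N < m * (N / m + 1) := Nat.lt_mul_div_succ N (by omega)
    have h2 : N ≤ 2 * m * (N / m) := by nlinarith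
    have h3 : (N : ℝ) ≤ 2 * m * (N / m : ℕ) := by exact_mod_cast h2
    have h4 : ε / (2 * m) * N ≤ ε * (N / m : ℕ) := by
      calc ε / (2 * m) * N ≤ ε / (2 * m) * (2 * m * (N / m : ℕ)) :=
            mul_le_mul_of_nonneg_left h3 (by positivity)
        _ = ε * (N / m : ℕ) := by field_simp
    calc (2 : ℝ) ^ (m ^ d) * (bd F K).card
        ≤ 2 ^ (m ^ d) * (ε / (2 * m * 2 ^ (m ^ d)) * N * F.card) :=
          mul_le_mul_of_nonneg_left (hL K hK') (by positivity)
      _ = (ε / (2 * m) * N) * F.card := by field_simp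
      _ ≤ ε * (N / m : ℕ) * F.card := mul_le_mul_of_nonneg_right h4 (Nat.cast_nonneg _)
  · have : (θ + θ') / 2 + ε = θ' := by rw [hε]; ring
    rw [this]
    exact hS

end Pool.Agent.J6H21.AS
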